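import Mathlib
import Pool.Agent.Q256.VS.Tot

set_option autoImplicit false

namespace Pool.Agent.Q256.VG

open Finset MvPolynomial
open Pool.Agent.Q256.CI Pool.Agent.Q256.VT Pool.Agent.Q256.VS

/-- the pairs `(G, F)` with a common zero `y ∈ 𝒴` of the `G j`, cut out by small hyperplanes, at
which the values of the `F i` form a vector in `𝓑 y`. -/
def SV {n s r : ℕ} (e : Fin s → ℕ) (d : Fin r → ℕ) (𝒴 : Set (Fin (n + 1) → ℤ)) (H T : ℕ)
    (𝓑 : (Fin (n + 1) → ℤ) → Set (Fin r → ℤ)) : Set (Sys n s r) :=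
  {P | InBox e d H P ∧ ∃ y ∈ 𝒴, CutOut T (fun k => (y k : ℚ)) ∧ (∀ j, eval y (P.1 j) = 0) ∧
    (fun i => eval y (P.2 i)) ∈ 𝓑 y}

/-- the vectors in `B` with entries of absolute value at most `X i`. -/
noncomputable def Vec {r : ℕ} (X : Fin r → ℕ) (B : Set (Fin r → ℤ)) : Finset (Fin r → ℤ) := by
  classical
  exact (Fintype.piFinset (fun i => Icc (-(X i : ℤ)) (X i))).filter (fun v => v ∈ B)

theorem mem_vec {r : ℕ} (X : Fin r → ℕ) (B : Set (Fin r → ℤ)) (v : Fin r → ℤ) :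
    v ∈ Vec X B ↔ (∀ i, |v i| ≤ X i) ∧ v ∈ B := by
  classical
  unfold Vec
  rw [mem_filter, Fintype.mem_piFinset]
  simp only [mem_Icc, ← abs_le]

/-- the sizes of the values. -/
def siz {r : ℕ} (n : ℕ) (d : Fin r → ℕ) (T q : ℕ) : Fin r → ℕ :=
  fun i => (n + d i).choose n * (T * q ^ d i)

/-- the count for one point. -/
theorem count_yV {n s r : ℕ} (e : Fin s → ℕ) (d : Fin r → ℕ) (H T : ℕ)
    (hT : 1 ≤ T) (hHT : H ≤ T)
    (y : Fin (n + 1) → ℤ) (hy : Prim y) (hcut : CutOut T (fun k => (y k : ℚ)))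
    (B : Set (Fin r → ℤ)) (A : Finset (Sys n s r))
    (hA : ∀ P ∈ A, InBox e d H P ∧ (∀ j, eval y (P.1 j) = 0) ∧
      (fun i => eval y (P.2 i)) ∈ B) :
    (#A : ℝ) ≤ (∏ j, (K n (e j) * (T : ℝ) ^ ((n + e j).choose n - 1) *
        (((qq y : ℕ) : ℝ) ^ e j)⁻¹)) *
      (#(Vec (siz n d T (qq y)) B) *
      ∏ i, (K n (d i) * (T : ℝ) ^ ((n + d i).choose n - 1) * (((qq y : ℕ) : ℝ) ^ d i)⁻¹)) := by
  classical
  obtain ⟨L, hL, hind, horth⟩ := hcut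
  obtain ⟨k0, hk0⟩ := exists_qq y
  have hq1 : 1 ≤ qq y := qq_pos y hy.ne
  have hsub : A ⊆ (Fintype.piFinset (fun j => (finite_vanC n (e j) H y 0).toFinset)) ×ˢ
      ((Vec (siz n d T (qq y)) B).biUnion
        (fun v => Fintype.piFinset (fun i => (finite_vanC n (d i) H y (v i)).toFinset))) := by
    intro P hP
    obtain ⟨h1, h2, h3⟩ := hA P hP
    rw [mem_product, Fintype.mem_piFinset, mem_biUnion]
    refine ⟨fun j => ?_, fun i => eval y (P.2 i), ?_, ?_⟩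
    · rw [Set.Finite.mem_toFinset]
      exact ⟨h1.1 j, h2 j⟩
    · rw [mem_vec]
      refine ⟨fun i => ?_, h3⟩
      have hbox : P.2 i ∈ Box n (d i) T :=
        ⟨(h1.2 i).1, fun α => ((h1.2 i).2 α).trans (by exact_mod_cast hHT)⟩
      have := size (P.2 i) hbox y (qq y : ℕ) (by positivity) (le_qq y)
      unfold siz
      push_cast
      exact this
    · rw [Fintype.mem_piFinset]
      intro i
      rw [Set.Finite.mem_toFinset]
      exact ⟨h1.2 i, rfl⟩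
  have hcard : ∀ (a : ℕ) (c : ℤ), (#((finite_vanC n a H y c).toFinset) : ℝ) ≤
      K n a * (T : ℝ) ^ ((n + a).choose n - 1) * (((qq y : ℕ) : ℝ) ^ a)⁻¹ := by
    intro a c
    have h8 : #((finite_vanC n a H y c).toFinset) = Nat.card (VanC n a H y c) := by
      rw [Nat.card_coe_set_eq, Set.ncard_eq_toFinset_card _ (finite_vanC n a H y c)]
    rw [h8]
    exact countC_real y hy (qq y) hq1 k0 hk0 T hT L hL hind horth a H hHT c
  have hK0 : ∀ a, 0 ≤ K n a * (T : ℝ) ^ ((n + a).choose n - 1) * (((qq y : ℕ) : ℝ) ^ a)⁻¹ := by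
    intro a
    have := K_nonneg n a
    positivity
  have h1 := card_le_card hsub
  rw [card_product] at h1
  have h3 : (#(Fintype.piFinset (fun j => (finite_vanC n (e j) H y 0).toFinset)) : ℝ) ≤
      ∏ j, (K n (e j) * (T : ℝ) ^ ((n + e j).choose n - 1) * (((qq y : ℕ) : ℝ) ^ e j)⁻¹) := by
    rw [Fintype.card_piFinset]
    push_cast
    exact prod_le_prod (fun i _ => Nat.cast_nonneg _) (fun i _ => hcard _ _)
  have h4 : (#((Vec (siz n d T (qq y)) B).biUnion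
        (fun v => Fintype.piFinset (fun i => (finite_vanC n (d i) H y (v i)).toFinset))) : ℝ) ≤
      #(Vec (siz n d T (qq y)) B) *
      ∏ i, (K n (d i) * (T : ℝ) ^ ((n + d i).choose n - 1) * (((qq y : ℕ) : ℝ) ^ d i)⁻¹) := by
    have h5 : (#((Vec (siz n d T (qq y)) B).biUnion
        (fun v => Fintype.piFinset (fun i => (finite_vanC n (d i) H y (v i)).toFinset))) : ℝ) ≤
        ∑ v ∈ Vec (siz n d T (qq y)) B,
          (#(Fintype.piFinset (fun i => (finite_vanC n (d i) H y (v i)).toFinset)) : ℝ) := by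
      exact_mod_cast card_biUnion_le
    refine h5.trans ?_
    rw [← nsmul_eq_mul, ← sum_const]
    refine sum_le_sum (fun v _ => ?_)
    rw [Fintype.card_piFinset]
    push_cast
    exact prod_le_prod (fun i _ => Nat.cast_nonneg _) (fun i _ => hcard _ _)
  have h6 : (#A : ℝ) ≤ (#(Fintype.piFinset (fun j => (finite_vanC n (e j) H y 0).toFinset)) : ℝ) *
      (#((Vec (siz n d T (qq y)) B).biUnion
        (fun v => Fintype.piFinset (fun i => (finite_vanC n (d i) H y (v i)).toFinset))) : ℝ) := by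
    exact_mod_cast h1
  refine h6.trans (mul_le_mul h3 h4 (Nat.cast_nonneg _) (prod_nonneg (fun j _ => hK0 _)))

/-- **The number of systems with values in given sets.** -/
theorem main_countV {n s r : ℕ} (e : Fin s → ℕ) (d : Fin r → ℕ)
    (𝒴 : Set (Fin (n + 1) → ℤ)) (hprim : ∀ y ∈ 𝒴, Prim y) (w : (Fin (n + 1) → ℤ) → ℝ)
    (hw : Conv 𝒴 w) (ε : ℝ) (hε : 0 < ε) :
    ∃ C : ℝ, 0 ≤ C ∧ ∀ (lam : ℝ) (H T : ℕ) (𝓑 : (Fin (n + 1) → ℤ) → Set (Fin r → ℤ)),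
      0 ≤ lam → 1 ≤ T → H ≤ T →
      (∀ y ∈ 𝒴, (#(Vec (siz n d T (qq y)) (𝓑 y)) : ℝ) ≤ lam *
        (((qq y : ℕ) : ℝ) ^ ((∑ j, (e j : ℝ)) + (∑ i, (d i : ℝ)) - ε) * Real.exp (-w y))) →
      (Nat.card (SV e d 𝒴 H T 𝓑) : ℝ) ≤ C * lam * (T : ℝ) ^
        ((∑ j, ((n + e j).choose n : ℝ)) + (∑ i, ((n + d i).choose n : ℝ)) - (s + r)) := by
  classical
  set P1 : ℝ := ∏ j, K n (e j) with hP1
  have hP10 : 0 ≤ P1 := prod_nonneg (fun i _ => K_nonneg n (e i))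
  set P2 : ℝ := ∏ i, K n (d i) with hP2
  have hP20 : 0 ≤ P2 := prod_nonneg (fun i _ => K_nonneg n (d i))
  let g : (Fin (n + 1) → ℤ) → ℝ := fun y => Real.exp (-w y) * ((qq y : ℕ) : ℝ) ^ (-ε)
  have hg0 : ∀ y, 0 ≤ g y := fun y => by
    change 0 ≤ Real.exp (-w y) * ((qq y : ℕ) : ℝ) ^ (-ε)
    positivity
  have hsg : Summable (fun y : 𝒴 => g y) := by
    refine (hw ε hε).congr (fun y => ?_)
    exact exp_eq _ (hprim y y.2).ne _ _
  set Sg : ℝ := ∑' y : 𝒴, g y with hSg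
  refine ⟨P1 * P2 * Sg, mul_nonneg (by positivity) (tsum_nonneg (fun y => hg0 _)), ?_⟩
  intro lam H T 𝓑 hlam hT hHT hB𝓑
  have hTr : (1 : ℝ) ≤ T := by exact_mod_cast hT
  have hT0 : (0 : ℝ) < T := by linarith
  have hfin : (SV e d 𝒴 H T 𝓑).Finite := (inBox_finite e d H).subset (fun _ hP => hP.1)
  have key : ∀ F : Sys n s r, ∃ y : Fin (n + 1) → ℤ,
      F ∈ SV e d 𝒴 H T 𝓑 → y ∈ 𝒴 ∧ CutOut T (fun k => (y k : ℚ)) ∧
        (InBox e d H F ∧ (∀ j, eval y (F.1 j) = 0) ∧ (fun i => eval y (F.2 i)) ∈ 𝓑 y) := by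
    intro F
    by_cases hF : F ∈ SV e d 𝒴 H T 𝓑
    · obtain ⟨h1, y, h2, h3, h4, h5⟩ := hF
      exact ⟨y, fun _ => ⟨h2, h3, h1, h4, h5⟩⟩
    · exact ⟨0, fun h => absurd h hF⟩
  choose Y hY using key
  let B : Finset (Sys n s r) := hfin.toFinset
  have hB : ∀ F, F ∈ B ↔ F ∈ SV e d 𝒴 H T 𝓑 := fun F => Set.Finite.mem_toFinset _
  have hcard : Nat.card (SV e d 𝒴 H T 𝓑) = #B := by
    rw [Nat.card_coe_set_eq, Set.ncard_eq_toFinset_card _ hfin]
  rw [hcard, card_eq_sum_card_image Y B]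
  push_cast
  set E : ℝ := (∑ j, ((n + e j).choose n : ℝ)) + (∑ i, ((n + d i).choose n : ℝ)) - (s + r) with hE
  have hone : ∀ y ∈ B.image Y, (#{F ∈ B | Y F = y} : ℝ) ≤
      P1 * P2 * lam * (T : ℝ) ^ E * g y := by
    intro y hy
    obtain ⟨F0, hF0, rfl⟩ := Finset.mem_image.1 hy
    obtain ⟨hy𝒴, hcut, -⟩ := hY F0 ((hB F0).1 hF0)
    set y := Y F0 with hydef
    have hprimy := hprim y hy𝒴
    have hq1 : 1 ≤ qq y := qq_pos y hprimy.ne
    have hq0 : (0 : ℝ) < ((qq y : ℕ) : ℝ) := by exact_mod_cast hq1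
    have h1 := count_yV e d H T hT hHT y hprimy hcut (𝓑 y) {F ∈ B | Y F = y} (by
      intro F hF
      rw [mem_filter] at hF
      have := hY F ((hB F).1 hF.1)
      rw [hF.2] at this
      exact this.2.2)
    rw [prod_KT e T (qq y) hT hq1, prod_KT d T (qq y) hT hq1, ← hP1, ← hP2] at h1
    refine h1.trans ?_
    have h2 := hB𝓑 y hy𝒴
    have h3 : P1 * (T : ℝ) ^ ((∑ j, ((n + e j).choose n : ℝ)) - s) *
          ((qq y : ℕ) : ℝ) ^ (-(∑ j, (e j : ℝ))) *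
        (#(Vec (siz n d T (qq y)) (𝓑 y)) *
        (P2 * (T : ℝ) ^ ((∑ i, ((n + d i).choose n : ℝ)) - r) *
          ((qq y : ℕ) : ℝ) ^ (-(∑ i, (d i : ℝ))))) ≤
        P1 * (T : ℝ) ^ ((∑ j, ((n + e j).choose n : ℝ)) - s) *
          ((qq y : ℕ) : ℝ) ^ (-(∑ j, (e j : ℝ))) *
        ((lam * (((qq y : ℕ) : ℝ) ^ ((∑ j, (e j : ℝ)) + (∑ i, (d i : ℝ)) - ε) *
          Real.exp (-w y))) *
        (P2 * (T : ℝ) ^ ((∑ i, ((n + d i).choose n : ℝ)) - r) *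
          ((qq y : ℕ) : ℝ) ^ (-(∑ i, (d i : ℝ))))) :=
      mul_le_mul_of_nonneg_left (mul_le_mul_of_nonneg_right h2 (by positivity)) (by positivity)
    refine h3.trans (le_of_eq ?_)
    have h4 : (T : ℝ) ^ E = (T : ℝ) ^ ((∑ j, ((n + e j).choose n : ℝ)) - s) *
        (T : ℝ) ^ ((∑ i, ((n + d i).choose n : ℝ)) - r) := by
      rw [← Real.rpow_add hT0]; congr 1; rw [hE]; ring
    have h5 : g y = Real.exp (-w y) * (((qq y : ℕ) : ℝ) ^ (-(∑ j, (e j : ℝ))) *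
        ((qq y : ℕ) : ℝ) ^ ((∑ j, (e j : ℝ)) + (∑ i, (d i : ℝ)) - ε) *
        ((qq y : ℕ) : ℝ) ^ (-(∑ i, (d i : ℝ)))) := by
      rw [← Real.rpow_add hq0, ← Real.rpow_add hq0]
      change Real.exp (-w y) * ((qq y : ℕ) : ℝ) ^ (-ε) = _
      congr 2
      ring
    rw [h4, h5]
    ring
  have himg : ∀ y ∈ B.image Y, y ∈ 𝒴 := by
    intro y hy
    obtain ⟨F0, hF0, rfl⟩ := Finset.mem_image.1 hy
    exact (hY F0 ((hB F0).1 hF0)).1
  have hsumle : ∑ y ∈ B.image Y, g y ≤ Sg := by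
    have h1 : ∑ y ∈ B.image Y, g y = ∑ y ∈ (B.image Y).subtype (· ∈ 𝒴), g (y : Fin (n + 1) → ℤ) := by
      rw [Finset.sum_subtype_of_mem g himg]
    rw [h1]
    exact hsg.sum_le_tsum _ (fun y _ => hg0 _)
  calc ∑ y ∈ B.image Y, (#{F ∈ B | Y F = y} : ℝ)
      ≤ ∑ y ∈ B.image Y, P1 * P2 * lam * (T : ℝ) ^ E * g y := sum_le_sum hone
    _ = P1 * P2 * lam * (T : ℝ) ^ E * ∑ y ∈ B.image Y, g y := by rw [mul_sum]
    _ ≤ P1 * P2 * lam * (T : ℝ) ^ E * Sg :=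
        mul_le_mul_of_nonneg_left hsumle (by positivity)
    _ = _ := by ring

end Pool.Agent.Q256.VG
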