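import Pool.Agent.Q266.VG.Stm

/-!
# Project VG (helper266): job STEPA
-/

set_option autoImplicit false

namespace Pool.Agent.Q256.VG

open Pool.Agent.Q266.VG
open scoped commutatorElement IsMulCommutative

/-! ### Left normed commutators -/

theorem foldl_mem {G : Type} [Group G] (x : ℕ → G) (Z : List ℕ) : ∀ (m : ℕ) (u : G), u ∈ gam G m →
    Z.foldl (fun u k => ⁅u, x k⁆) u ∈ gam G (m + Z.length) := by
  induction Z with
  | nil => intro m u hu; simpa using hu
  | cons k Z ih =>
    intro m u hu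
    have h1 : ⁅u, x k⁆ ∈ gam G (m + 1) :=
      Subgroup.commutator_mem_commutator hu (Subgroup.mem_top _)
    have := ih (m + 1) _ h1
    rw [List.foldl_cons, List.length_cons]
    have e : m + (Z.length + 1) = m + 1 + Z.length := by omega
    rw [e]
    exact this

theorem E_mem {G : Type} [Group G] (x : ℕ → G) (y z : ℕ) (Z : List ℕ) :
    E x y z Z ∈ gam G (Z.length + 1) := by
  have h1 : ⁅x y, x z⁆ ∈ gam G 1 :=
    Subgroup.commutator_mem_commutator (Subgroup.mem_top _) (Subgroup.mem_top _)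
  have := foldl_mem x Z 1 _ h1
  rw [Nat.add_comm] at this
  exact this

theorem map_E {G H : Type} [Group G] [Group H] (f : G →* H) (x : ℕ → G) (y z : ℕ) (Z : List ℕ) :
    f (E x y z Z) = E (fun k => f (x k)) y z Z := by
  unfold E
  rw [← map_commutatorElement]
  generalize ⁅x y, x z⁆ = u
  induction Z generalizing u with
  | nil => rfl
  | cons k Z ih => rw [List.foldl_cons, List.foldl_cons, ih, map_commutatorElement]

/-! ### Representation by generators -/

theorem rep {M : Type} [CommGroup M] {ι : Type} (g : ι → M) (y : M)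
    (hy : y ∈ Subgroup.closure (Set.range g)) :
    ∃ s : List (ℤ × ι), y = (s.map fun t => g t.2 ^ t.1).prod := by
  induction hy using Subgroup.closure_induction with
  | mem x hx => obtain ⟨i, rfl⟩ := hx; exact ⟨[(1, i)], by simp⟩
  | one => exact ⟨[], by simp⟩
  | mul x y _ _ hx hy =>
    obtain ⟨s, rfl⟩ := hx
    obtain ⟨t, rfl⟩ := hy
    exact ⟨s ++ t, by simp⟩
  | inv x _ hx =>
    obtain ⟨s, rfl⟩ := hx
    refine ⟨s.map fun t => (-t.1, t.2), ?_⟩
    rw [List.map_map, List.prod_inv, List.map_map]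
    congr 1
    refine List.map_congr_left fun t _ => ?_
    simp

/-- index set of the left normed commutators of weight `n + 2` -/
abbrev Ix (n : ℕ) := {t : ℕ × ℕ × List ℕ // t.2.2.length = n}

/-- the left normed commutator as an element of `gam F (n + 1)` -/
def El {n : ℕ} (t : Ix n) : gam F (n + 1) :=
  ⟨E FreeGroup.of t.1.1 t.1.2.1 t.1.2.2, by
    have h := E_mem (G := F) FreeGroup.of t.1.1 t.1.2.1 t.1.2.2
    rwa [t.2] at h⟩

theorem rep_gam (h : S_GEN) (n : ℕ) {M : Type} [CommGroup M] (f : gam F (n + 1) →* M)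
    (hf : ∀ w : gam F (n + 1), (w : F) ∈ gam F (n + 2) → f w = 1) (w : gam F (n + 1)) :
    ∃ s : List (ℤ × Ix n), f w = (s.map fun t => f (El t.2) ^ t.1).prod := by
  refine rep (fun i : Ix n => f (El i)) (f w) ?_
  set C : Subgroup (gam F (n + 1)) :=
    (Subgroup.closure (Set.range fun i : Ix n => f (El i))).comap f with hC
  have hle : gam F (n + 1) ≤ C.map (gam F (n + 1)).subtype := by
    refine (h n).trans (sup_le ?_ ?_)
    · rw [Subgroup.closure_le]
      rintro g ⟨y, z, Z, hZ, rfl⟩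
      refine ⟨El ⟨(y, z, Z), hZ⟩, ?_, rfl⟩
      exact Subgroup.subset_closure ⟨⟨(y, z, Z), hZ⟩, rfl⟩
    · intro g hg
      have hg' : g ∈ gam F (n + 1) := Subgroup.lowerCentralSeries_antitone _ (Nat.le_succ _) hg
      refine ⟨⟨g, hg'⟩, ?_, rfl⟩
      show f ⟨g, hg'⟩ ∈ Subgroup.closure (Set.range fun i : Ix n => f (El i))
      rw [hf ⟨g, hg'⟩ hg]
      exact one_mem _
  obtain ⟨w', hw', he⟩ := hle w.2
  have : w' = w := Subtype.ext he
  rw [← this]
  exact hw'

/-! ### The matrix homomorphisms -/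

/-- linear part -/
def Lin (a b g : Mat 6) (n m : ZMod 7) : Prop := IsN 6 2 (g - 1 - n • a - m • b)

theorem Lin.isN {a b g : Mat 6} (ha : IsN 6 1 a) (hb : IsN 6 1 b) {n m : ZMod 7}
    (hg : Lin a b g n m) : IsN 6 1 (g - 1) := by
  have e : g - 1 = (g - 1 - n • a - m • b) + n • a + m • b := by abel
  rw [e]
  exact ((IsN.mono hg (by norm_num)).add (ha.smul n)).add (hb.smul m)

theorem Lin.mul {a b : Mat 6} (ha : IsN 6 1 a) (hb : IsN 6 1 b) {g h : Mat 6}
    {n m n' m' : ZMod 7} (hg : Lin a b g n m) (hh : Lin a b h n' m') :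
    Lin a b (g * h) (n + n') (m + m') := by
  unfold Lin
  have e : g * h - 1 - (n + n') • a - (m + m') • b =
      (g - 1) * (h - 1) + (g - 1 - n • a - m • b) + (h - 1 - n' • a - m' • b) := by
    simp only [add_smul, sub_mul, mul_sub, one_mul, mul_one]
    abel
  rw [e]
  exact (((hg.isN ha hb).mul (hh.isN ha hb)).add hg).add hh

theorem Lin.one (a b : Mat 6) : Lin a b 1 0 0 := by
  unfold Lin
  have e : (1 : Mat 6) - 1 - (0 : ZMod 7) • a - (0 : ZMod 7) • b = 0 := by simp
  rw [e]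
  exact IsN.zero _ _

theorem Lin.pow {a b : Mat 6} (ha : IsN 6 1 a) (hb : IsN 6 1 b) {g : Mat 6}
    {n m : ZMod 7} (hg : Lin a b g n m) (k : ℕ) : Lin a b (g ^ k) (k * n) (k * m) := by
  induction k with
  | zero => simpa using Lin.one a b
  | succ k ih =>
    rw [pow_succ]
    have := ih.mul ha hb hg
    push_cast
    rw [add_mul, add_mul, one_mul, one_mul]
    exact this

theorem Lin.left (a b : Mat 6) : Lin a b (1 + a) 1 0 := by
  unfold Lin
  have e : (1 : Mat 6) + a - 1 - (1 : ZMod 7) • a - (0 : ZMod 7) • b = 0 := by simp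
  rw [e]
  exact IsN.zero _ _

theorem Lin.right (a b : Mat 6) : Lin a b (1 + b) 0 1 := by
  unfold Lin
  have e : (1 : Mat 6) + b - 1 - (0 : ZMod 7) • a - (1 : ZMod 7) • b = 0 := by simp
  rw [e]
  exact IsN.zero _ _

/-- the substitution -/
def phi (v : Fin 3 × ℕ → ZMod 7) : F →* F2 :=
  FreeGroup.lift fun k => FreeGroup.of 0 ^ (v (0, k)).val * FreeGroup.of 1 ^ (v (1, k)).val

/-- the representation -/
def rho (A B : (Mat 6)ˣ) (v : Fin 3 × ℕ → ZMod 7) : F →* (Mat 6)ˣ :=
  (FreeGroup.lift ![A, B]).comp (phi v)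

theorem rho_of (A B : (Mat 6)ˣ) (v : Fin 3 × ℕ → ZMod 7) (k : ℕ) :
    rho A B v (FreeGroup.of k) = A ^ (v (0, k)).val * B ^ (v (1, k)).val := by
  simp [rho, phi]

theorem entry_mul (g h : Mat 6) (k : ℕ) (hk : 1 ≤ k) (j : Fin 6) (hj : (j : ℕ) = k)
    (hg : IsN 6 k (g - 1)) (hh : IsN 6 k (h - 1)) : (g * h) 0 j = g 0 j + h 0 j := by
  have e : g * h = (g - 1) * (h - 1) + (g + h - 1) := by
    simp only [sub_mul, mul_sub, one_mul, mul_one]
    abel
  have h0 : ((g - 1) * (h - 1)) 0 j = 0 := (hg.mul hh) 0 j (by simp; omega)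
  have h1 : (1 : Mat 6) 0 j = 0 := Matrix.one_apply_ne (by
    intro h
    rw [← h] at hj
    simp at hj
    omega)
  rw [e, Matrix.add_apply, h0, zero_add, Matrix.sub_apply, Matrix.add_apply, h1, sub_zero]

/-- the entry `(0, n + 2)` on `gam F (n + 1)` -/
def fv (ρ : F →* (Mat 6)ˣ) (n : ℕ) (j : Fin 6) (hj : (j : ℕ) = n + 2)
    (hρ : ∀ w ∈ gam F (n + 1), IsN 6 (n + 2) ((ρ w : Mat 6) - 1)) :
    gam F (n + 1) →* Multiplicative (ZMod 7) where
  toFun w := Multiplicative.ofAdd ((ρ w : Mat 6) 0 j)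
  map_one' := by
    have h1 : (1 : Mat 6) 0 j = 0 := Matrix.one_apply_ne (by
      intro h
      rw [← h] at hj
      simp at hj)
    rw [Subgroup.coe_one, map_one, Units.val_one, h1]
    rfl
  map_mul' w w' := by
    rw [Subgroup.coe_mul, map_mul, Units.val_mul,
      entry_mul _ _ (n + 2) (by omega) j hj (hρ _ w.2) (hρ _ w'.2), ofAdd_add]

/-! ### The quotient -/

instance U_normal : U.Normal := by
  have h1 : (Subgroup.closure (Set.range fun x : F => x ^ 7)).Normal := by
    refine ⟨fun n hn g => ?_⟩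
    induction hn using Subgroup.closure_induction with
    | mem x hx =>
      obtain ⟨y, rfl⟩ := hx
      refine Subgroup.subset_closure ⟨g * y * g⁻¹, ?_⟩
      simp only [conj_pow]
    | one => simp
    | mul x y _ _ hx hy =>
      have e : g * (x * y) * g⁻¹ = (g * x * g⁻¹) * (g * y * g⁻¹) := by group
      rw [e]
      exact mul_mem hx hy
    | inv x _ hx =>
      have e : g * x⁻¹ * g⁻¹ = (g * x * g⁻¹)⁻¹ := by group
      rw [e]
      exact inv_mem hx
  unfold U
  infer_instance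

instance V_normal : V.Normal := by
  unfold V
  infer_instance

/-- the kernel -/
abbrev KK (n : ℕ) : Subgroup F := D2 F ⊔ (V ⊔ gam F (n + 2))

/-- the quotient -/
abbrev GG (n : ℕ) := F ⧸ KK n

theorem gam_GG (n m : ℕ) : gam (GG n) m = (gam F m).map (QuotientGroup.mk' (KK n)) := by
  show (⊤ : Subgroup (GG n)).lowerCentralSeries m = _
  rw [Subgroup.map_lowerCentralSeries,
    Subgroup.map_top_of_surjective _ (QuotientGroup.mk'_surjective (KK n))]

theorem gam_bot (n : ℕ) : gam (GG n) (n + 2) = ⊥ := by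
  rw [gam_GG, Subgroup.map_eq_bot_iff, QuotientGroup.ker_mk']
  exact le_sup_right.trans le_sup_right

theorem comm_of (n : ℕ) {x y : F} (h : ⁅x, y⁆ ∈ KK n) :
    (QuotientGroup.mk' (KK n) x) * (QuotientGroup.mk' (KK n) y) =
      (QuotientGroup.mk' (KK n) y) * (QuotientGroup.mk' (KK n) x) := by
  rw [← commutatorElement_eq_one_iff_mul_comm, ← map_commutatorElement]
  exact (QuotientGroup.eq_one_iff _).2 h

theorem met (n : ℕ) : ∀ g ∈ gam (GG n) 1, ∀ h ∈ gam (GG n) 1, g * h = h * g := by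
  rw [gam_GG]
  rintro _ ⟨x, hx, rfl⟩ _ ⟨y, hy, rfl⟩
  refine comm_of n (Subgroup.mem_sup_left ?_)
  exact Subgroup.commutator_mem_commutator hx hy

theorem pow7 (n : ℕ) : ∀ g : GG n, g ^ 7 ∈ Subgroup.center (GG n) := by
  intro g
  obtain ⟨x, rfl⟩ := QuotientGroup.mk'_surjective (KK n) g
  rw [Subgroup.mem_center_iff]
  intro h
  obtain ⟨y, rfl⟩ := QuotientGroup.mk'_surjective (KK n) h
  rw [← map_pow]
  refine (comm_of n (Subgroup.mem_sup_right (Subgroup.mem_sup_left ?_))).symm
  refine Subgroup.commutator_mem_commutator ?_ (Subgroup.mem_top _)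
  exact Subgroup.mem_sup_left (Subgroup.subset_closure ⟨x, rfl⟩)

/-- the projection of `gam F (n + 1)` -/
noncomputable def f1 (n : ℕ) : gam F (n + 1) →* Subgroup.center (GG n) :=
  ((QuotientGroup.mk' (KK n)).comp (gam F (n + 1)).subtype).codRestrict _ (by
    intro w
    rw [Subgroup.mem_center_iff]
    intro h
    obtain ⟨y, rfl⟩ := QuotientGroup.mk'_surjective (KK n) h
    refine (comm_of n (Subgroup.mem_sup_right (Subgroup.mem_sup_right ?_))).symm
    exact Subgroup.commutator_mem_commutator w.2 (Subgroup.mem_top _))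

theorem f1_val (n : ℕ) (w : gam F (n + 1)) :
    ((f1 n w : Subgroup.center (GG n)) : GG n) = QuotientGroup.mk' (KK n) (w : F) := rfl

/-- the generators of the quotient -/
def xg (n : ℕ) (k : ℕ) : GG n := QuotientGroup.mk' (KK n) (FreeGroup.of k)

theorem f1_El (n : ℕ) (t : Ix n) :
    ((f1 n (El t) : Subgroup.center (GG n)) : GG n) = E (xg n) t.1.1 t.1.2.1 t.1.2.2 := by
  rw [f1_val]
  exact map_E _ _ _ _ _

/-- the target of the coefficient comparison -/
abbrev LL (n : ℕ) := Additive (Subgroup.center (GG n))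

/-- the commutators as functions of a multiset -/
noncomputable def ee (n : ℕ) (a b : ℕ) (Z : Multiset ℕ) : LL n :=
  if h : Multiset.card Z = n then
    Additive.ofMul (f1 n (El ⟨(a, b, Z.toList), by simpa using h⟩)) else 0

/-- the value in the group -/
def vl {n : ℕ} (l : LL n) : GG n := ((Additive.toMul l : Subgroup.center (GG n)) : GG n)

theorem vl_inj {n : ℕ} {l l' : LL n} (h : vl l = vl l') : l = l' :=
  Additive.toMul.injective (Subtype.ext h)

theorem vl_ee (n a b : ℕ) (Z : Multiset ℕ) :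
    vl (ee n a b Z) = if Multiset.card Z = n then E (xg n) a b Z.toList else 1 := by
  unfold ee
  split_ifs with h
  · exact f1_El n _
  · rfl

theorem ofMul_f1_El (hr : S_RELA) (n : ℕ) (t : Ix n) :
    Additive.ofMul (f1 n (El t)) = ee n t.1.1 t.1.2.1 (t.1.2.2 : Multiset ℕ) := by
  apply vl_inj
  rw [vl_ee, if_pos (by simpa using t.2)]
  refine (f1_El n t).trans ?_
  refine (hr (GG n) (xg n) (met n)).1 _ _ _ _ ?_
  rw [← Multiset.coe_eq_coe, Multiset.coe_toList]

theorem ee_anti (hr : S_RELA) (n a b : ℕ) (Z : Multiset ℕ) : ee n b a Z = -ee n a b Z := by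
  apply vl_inj
  show vl (ee n b a Z) = (vl (ee n a b Z))⁻¹
  rw [vl_ee, vl_ee]
  split_ifs with h
  · exact (hr (GG n) (xg n) (met n)).2.1 _ _ _
  · simp

theorem ee_jac (hr : S_RELA) (n a b c : ℕ) (Z : Multiset ℕ) :
    ee n a b (c ::ₘ Z) + ee n b c (a ::ₘ Z) + ee n c a (b ::ₘ Z) = 0 := by
  apply vl_inj
  show vl (ee n a b (c ::ₘ Z)) * vl (ee n b c (a ::ₘ Z)) * vl (ee n c a (b ::ₘ Z)) = 1
  rw [vl_ee, vl_ee, vl_ee, Multiset.card_cons, Multiset.card_cons, Multiset.card_cons]
  split_ifs with h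
  · have hp : ∀ k : ℕ, (k ::ₘ Z).toList.Perm (k :: Z.toList) := by
      intro k
      rw [← Multiset.coe_eq_coe, Multiset.coe_toList, ← Multiset.cons_coe, Multiset.coe_toList]
    have h1 := (hr (GG n) (xg n) (met n)).1
    rw [h1 _ _ _ _ (hp c), h1 _ _ _ _ (hp a), h1 _ _ _ _ (hp b)]
    exact (hr (GG n) (xg n) (met n)).2.2.1 _ _ _ _
  · simp

theorem ee_seven (hr : S_RELA) (n a b : ℕ) (Z : Multiset ℕ) : (7 : ℤ) • ee n a b Z = 0 := by
  apply vl_inj
  show (vl (ee n a b Z)) ^ (7 : ℤ) = 1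
  rw [vl_ee]
  split_ifs with h
  · have := (hr (GG n) (xg n) (met n)).2.2.2 a b Z.toList (pow7 n) (by
      rw [Multiset.length_toList, h]
      exact gam_bot n)
    exact_mod_cast this
  · simp

/-! ### Contents -/

/-- the content -/
def mu (i : ℕ × Multiset ℕ) : Multiset (Fin 3 × ℕ) :=
  ((1 : Fin 3), i.1) ::ₘ i.2.map (fun z => ((0 : Fin 3), z))

theorem mu_inj {i j : ℕ × Multiset ℕ} (h : mu i = mu j) : i = j := by
  have h0 : ∀ i : ℕ × Multiset ℕ,
      ((mu i).filter (fun p => p.1 = 0)).map Prod.snd = i.2 := by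
    intro i
    unfold mu
    rw [Multiset.filter_cons_of_neg (p := fun p : Fin 3 × ℕ => p.1 = 0) _ (by simp),
      Multiset.filter_eq_self.2, Multiset.map_map]
    · simp
    · intro a ha
      obtain ⟨z, -, rfl⟩ := Multiset.mem_map.1 ha
      rfl
  have h1 : ∀ i : ℕ × Multiset ℕ,
      ((mu i).filter (fun p => p.1 = 1)).map Prod.snd = {i.1} := by
    intro i
    unfold mu
    rw [Multiset.filter_cons_of_pos (p := fun p : Fin 3 × ℕ => p.1 = 1) _ (by rfl),
      Multiset.filter_eq_nil.2]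
    · rfl
    · intro a ha
      obtain ⟨z, -, rfl⟩ := Multiset.mem_map.1 ha
      simp
  have e0 : i.2 = j.2 := by rw [← h0 i, ← h0 j, h]
  have e1 : ({i.1} : Multiset ℕ) = {j.1} := by rw [← h1 i, ← h1 j, h]
  exact Prod.ext (Multiset.singleton_inj.1 e1) e0

theorem mu_prod (v : Fin 3 × ℕ → ZMod 7) (y z : ℕ) (Z : List ℕ) :
    ((mu (y, z ::ₘ (Z : Multiset ℕ))).map v).prod =
      v (1, y) * (v (0, z) * (Z.map fun k => v (0, k)).prod) := by
  unfold mu
  simp only [Multiset.map_cons, Multiset.prod_cons, Multiset.map_coe, Multiset.prod_coe,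
    List.map_map]
  rfl

theorem cop (n : ℕ) (hn : n ≤ 3) : IsCoprime ((n : ℤ) + 2) 7 := by
  rw [Int.isCoprime_iff_gcd_eq_one]
  interval_cases n <;> rfl

/-! ### The step -/

theorem stepa (huni : S_UNI) (_hlead : S_LEAD) (hfil : S_FIL) (heva : S_EVA) (hgen : S_GEN)
    (hrela : S_RELA) (hsym : S_SYM) (hida : S_IDA) : S_STEPA := by
  intro n hn w hw hmet
  obtain ⟨A, hA⟩ := huni.1 6 aA isN_aA
  obtain ⟨B, hB⟩ := huni.1 6 bA isN_bA
  -- the representations
  have hθ : ∀ y : F2, IsN 6 1 ((FreeGroup.lift ![A, B] y : Mat 6) - 1) := by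
    refine huni.2.2.1 (Fin 2) 6 (FreeGroup.lift ![A, B]) ?_
    intro k
    rw [FreeGroup.lift_apply_of]
    fin_cases k
    · show IsN 6 1 ((A : Mat 6) - 1)
      rw [hA, add_sub_cancel_left]
      exact isN_aA
    · show IsN 6 1 ((B : Mat 6) - 1)
      rw [hB, add_sub_cancel_left]
      exact isN_bA
  have hρ1 : ∀ (v : Fin 3 × ℕ → ZMod 7) (g : F), IsN 6 1 ((rho A B v g : Mat 6) - 1) :=
    fun v g => hθ (phi v g)
  have hρ : ∀ (v : Fin 3 × ℕ → ZMod 7) (m : ℕ), ∀ w ∈ gam F m,
      IsN 6 (m + 1) ((rho A B v w : Mat 6) - 1) :=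
    fun v m w hw => hfil F 6 (rho A B v) (hρ1 v) m w hw
  have hlin : ∀ (v : Fin 3 × ℕ → ZMod 7) (k : ℕ),
      Lin aA bA (rho A B v (FreeGroup.of k) : Mat 6) (v (0, k)) (v (1, k)) := by
    intro v k
    rw [rho_of, Units.val_mul, Units.val_pow_eq_pow_val, Units.val_pow_eq_pow_val, hA, hB]
    have h1 := ((Lin.left aA bA).pow isN_aA isN_bA (v (0, k)).val).mul isN_aA isN_bA
      ((Lin.right aA bA).pow isN_aA isN_bA (v (1, k)).val)
    simpa using h1
  have hjlt : n + 2 < 6 := by omega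
  set j : Fin 6 := ⟨n + 2, hjlt⟩ with hj
  have hjv : (j : ℕ) = n + 2 := rfl
  have h1j : (1 : Mat 6) 0 j = 0 := Matrix.one_apply_ne (by
    intro h
    have := congrArg Fin.val h
    rw [hjv] at this
    simp at this)
  -- the combined homomorphism
  let f2 : gam F (n + 1) →* ((Fin 3 × ℕ → ZMod 7) → Multiplicative (ZMod 7)) :=
    MonoidHom.pi fun v => fv (rho A B v) n j hjv (hρ v (n + 1))
  let f : gam F (n + 1) →*
      (Subgroup.center (GG n) × ((Fin 3 × ℕ → ZMod 7) → Multiplicative (ZMod 7))) :=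
    (f1 n).prod f2
  have hf : ∀ w : gam F (n + 1), (w : F) ∈ gam F (n + 2) → f w = 1 := by
    intro w hw
    refine Prod.ext ?_ (funext fun v => ?_)
    · refine Subtype.ext ?_
      refine (f1_val n w).trans ?_
      exact (QuotientGroup.eq_one_iff _).2 (Subgroup.mem_sup_right (Subgroup.mem_sup_right hw))
    · show Multiplicative.ofAdd ((rho A B v w : Mat 6) 0 j) = Multiplicative.ofAdd 0
      congr 1
      have h1 := hρ v (n + 2) w hw 0 j (by simp [hjv])
      rw [Matrix.sub_apply, h1j, sub_zero] at h1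
      exact h1
  obtain ⟨s, hs⟩ := rep_gam
    (M := Subgroup.center (GG n) × ((Fin 3 × ℕ → ZMod 7) → Multiplicative (ZMod 7)))
    hgen n f hf ⟨w, hw⟩
  have hs1 : Additive.ofMul (f1 n ⟨w, hw⟩) =
      (s.map fun t => t.1 • ee n t.2.1.1 t.2.1.2.1 (t.2.1.2.2 : Multiset ℕ)).sum := by
    have h1 := congrArg (fun p => Additive.ofMul (Prod.fst p)) hs
    have h2 : f1 n ⟨w, hw⟩ = (s.map fun t => f1 n (El t.2) ^ t.1).prod := by
      have h3 := congrArg (MonoidHom.fst _ _) hs
      rw [map_list_prod, List.map_map] at h3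
      exact h3
    rw [h2, ofMul_list_prod, List.map_map]
    congr 1
    refine List.map_congr_left fun t _ => ?_
    rw [← ofMul_f1_El hrela]
    rfl
  have hs2 : ∀ v : Fin 3 × ℕ → ZMod 7,
      (s.map fun t => (t.1 : ZMod 7) *
        ((v (1, t.2.1.1) * v (0, t.2.1.2.1) - v (0, t.2.1.1) * v (1, t.2.1.2.1)) *
          (t.2.1.2.2.map fun k => v (0, k)).prod)).sum = 0 := by
    intro v
    have h2 : fv (rho A B v) n j hjv (hρ v (n + 1)) ⟨w, hw⟩ =
        (s.map fun t => fv (rho A B v) n j hjv (hρ v (n + 1)) (El t.2) ^ t.1).prod := by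
      have h3 := congrArg ((Pi.evalMonoidHom _ v).comp (MonoidHom.snd _ _)) hs
      rw [map_list_prod, List.map_map] at h3
      exact h3
    have h3 : fv (rho A B v) n j hjv (hρ v (n + 1)) ⟨w, hw⟩ = Multiplicative.ofAdd 0 := by
      show Multiplicative.ofAdd ((rho A B v w : Mat 6) 0 j) = Multiplicative.ofAdd 0
      have h4 : rho A B v w = 1 := hmet A B hA hB (phi v)
      rw [h4, Units.val_one, h1j]
    rw [h3] at h2
    have h5 := congrArg Multiplicative.toAdd h2
    rw [toAdd_list_sum, List.map_map] at h5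
    refine Eq.trans ?_ h5.symm
    congr 1
    refine List.map_congr_left fun t _ => ?_
    have h6 : ((rho A B v (E FreeGroup.of t.2.1.1 t.2.1.2.1 t.2.1.2.2) : (Mat 6)ˣ) : Mat 6) 0 j =
        (v (1, t.2.1.1) * v (0, t.2.1.2.1) - v (0, t.2.1.1) * v (1, t.2.1.2.1)) *
          (t.2.1.2.2.map fun k => v (0, k)).prod := by
      rw [map_E]
      refine (heva (fun k => rho A B v (FreeGroup.of k)) (fun k => v (0, k)) (fun k => v (1, k))
        (hlin v) t.2.1.1 t.2.1.2.1 t.2.1.2.2 (by rw [t.2.2]; exact hn)).2 j ?_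
      rw [hjv, t.2.2]
    have h7 : (Multiplicative.toAdd ∘ fun t : ℤ × Ix n =>
        fv (rho A B v) n j hjv (hρ v (n + 1)) (El t.2) ^ t.1) t = t.1 •
        ((rho A B v (E FreeGroup.of t.2.1.1 t.2.1.2.1 t.2.1.2.2) : (Mat 6)ˣ) : Mat 6) 0 j := rfl
    rw [h7, h6, zsmul_eq_mul]
  -- coefficient comparison
  have hanti := ee_anti hrela n
  have hjac := ee_jac hrela n
  have hseven := ee_seven hrela n
  have hsum := hsym (ℕ × Multiset ℕ) (LL n) mu (fun i => PhiA (ee n) i.1 i.2)
    (fun i j h => by rw [mu_inj h])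
    (fun i => by
      show (7 : ℤ) • ((i.2.map fun z => ee n i.1 z (i.2.erase z)).sum) = 0
      rw [Multiset.smul_sum, Multiset.map_map]
      refine Multiset.sum_eq_zero fun x hx => ?_
      obtain ⟨z, -, rfl⟩ := Multiset.mem_map.1 hx
      exact hseven _ _ _)
    ((s.map fun t => (t.1, (t.2.1.1, t.2.1.2.1 ::ₘ (t.2.1.2.2 : Multiset ℕ)))) ++
      (s.map fun t => (-t.1, (t.2.1.2.1, t.2.1.1 ::ₘ (t.2.1.2.2 : Multiset ℕ)))))
    (by
      intro t ht
      rw [List.mem_append] at ht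
      rcases ht with ht | ht
      · obtain ⟨u, -, rfl⟩ := List.mem_map.1 ht
        have := u.2.2
        simp only [mu, Multiset.card_cons, Multiset.card_map, Multiset.coe_card]
        omega
      · obtain ⟨u, -, rfl⟩ := List.mem_map.1 ht
        have := u.2.2
        simp only [mu, Multiset.card_cons, Multiset.card_map, Multiset.coe_card]
        omega)
    (by
      intro v
      rw [List.map_append, List.sum_append, List.map_map, List.map_map, ← List.sum_map_add]
      refine Eq.trans ?_ (hs2 v)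
      congr 1
      refine List.map_congr_left fun t _ => ?_
      simp only [Function.comp_apply]
      rw [mu_prod, mu_prod]
      push_cast
      ring)
  rw [List.map_append, List.sum_append, List.map_map, List.map_map, ← List.sum_map_add] at hsum
  have hsum2 : ((n : ℤ) + 2) • Additive.ofMul (f1 n ⟨w, hw⟩) = 0 := by
    rw [hs1, List.smul_sum, List.map_map]
    refine Eq.trans ?_ hsum
    congr 1
    refine List.map_congr_left fun t _ => ?_
    simp only [Function.comp_apply]
    rw [neg_smul, ← sub_eq_add_neg, ← smul_sub, hida (LL n) (ee n) hanti hjac, Multiset.coe_card,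
      t.2.2, smul_comm]
  have hsum7 : (7 : ℤ) • Additive.ofMul (f1 n ⟨w, hw⟩) = 0 := by
    rw [hs1, List.smul_sum, List.map_map]
    refine List.sum_eq_zero fun x hx => ?_
    obtain ⟨t, -, rfl⟩ := List.mem_map.1 hx
    simp only [Function.comp_apply]
    rw [smul_comm, hseven, smul_zero]
  obtain ⟨a, b, hab⟩ := cop n hn
  have hzero : Additive.ofMul (f1 n ⟨w, hw⟩) = 0 := by
    have : Additive.ofMul (f1 n ⟨w, hw⟩) = (a * ((n : ℤ) + 2) + b * 7) •
        Additive.ofMul (f1 n ⟨w, hw⟩) := by rw [hab, one_smul]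
    rw [this, add_smul, mul_smul, mul_smul, hsum2, hsum7, smul_zero, smul_zero, add_zero]
  have hval : QuotientGroup.mk' (KK n) w = 1 := congrArg vl hzero
  exact (QuotientGroup.eq_one_iff _).1 hval

end Pool.Agent.Q256.VG
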